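import Pool.Agent.Helper37.FP.Umat

/-!
# FP-8: Artin-Schreier covers
-/

set_option autoImplicit false

namespace Pool.Agent.Helper54.FP

section
variable {p : ℕ} [Fact p.Prime] {G : Type} [Group G] [Fintype G] [DecidableEq G]

/-- the Artin-Schreier polynomial -/
private noncomputable def asQ (p : ℕ) {E : Type} [CommRing E] (g : E) : Polynomial E :=
  Polynomial.X ^ p - (Polynomial.X + Polynomial.C g)

private theorem as_lin_deg {E : Type} [CommRing E] [Nontrivial E] (g : E) :
    (Polynomial.X + Polynomial.C g : Polynomial E).degree < (p : ℕ) := by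
  have hp : 1 < p := (Fact.out : p.Prime).one_lt
  rw [Polynomial.degree_X_add_C]
  exact_mod_cast hp

private theorem asQ_monic {E : Type} [CommRing E] [Nontrivial E] (g : E) : (asQ p g).Monic :=
  Polynomial.monic_X_pow_sub (as_lin_deg g)

private theorem asQ_natDegree {E : Type} [CommRing E] [Nontrivial E] (g : E) :
    (asQ p g).natDegree = p := by
  unfold asQ
  rw [Polynomial.natDegree_sub_eq_left_of_natDegree_lt]
  · exact Polynomial.natDegree_X_pow p
  · rw [Polynomial.natDegree_X_pow, Polynomial.natDegree_X_add_C]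
    exact (Fact.out : p.Prime).one_lt

private theorem asQ_eval {E Ω : Type} [CommRing E] [CommRing Ω] {i : E →+* Ω} {g : E} {u : Ω}
    (hu : u ^ p - u = i g) : (asQ p g).eval₂ i u = 0 := by
  unfold asQ
  rw [Polynomial.eval₂_sub, Polynomial.eval₂_add, Polynomial.eval₂_X_pow, Polynomial.eval₂_X,
    Polynomial.eval₂_C, ← hu]
  ring

private theorem asQ_mod {E Ω : Type} [CommRing E] [CommRing Ω] {i : E →+* Ω}
    {g : E} {u : Ω} (hu : u ^ p - u = i g) (P : Polynomial E) :
    (P.modByMonic (asQ p g)).eval₂ i u = P.eval₂ i u := by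
  conv_rhs => rw [← Polynomial.modByMonic_add_div P (asQ p g)]
  rw [Polynomial.eval₂_add, Polynomial.eval₂_mul, asQ_eval hu, zero_mul, add_zero]

private theorem asQ_mod_deg {E : Type} [CommRing E] [Nontrivial E] (g : E) (P : Polynomial E) :
    (P.modByMonic (asQ p g)).natDegree < p := by
  have h1 := Polynomial.natDegree_modByMonic_lt P (asQ_monic (p := p) g) (by
    intro h
    have := asQ_natDegree (p := p) g
    rw [h, Polynomial.natDegree_one] at this
    exact (Fact.out : p.Prime).ne_zero this.symm)
  rwa [asQ_natDegree] at h1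

theorem rel_poly_as {E Ω Ω' : Type} [CommRing E] [Nontrivial E] [CommRing Ω] [CommRing Ω']
    {i : E →+* Ω} {j : E →+* Ω'} {g : E} {u : Ω} {u' : Ω'} (hu : u ^ p - u = i g)
    (hu' : u' ^ p - u' = j g)
    (hind : ∀ P : Polynomial E, P.natDegree < p → P.eval₂ i u = 0 → P = 0)
    (P : Polynomial E) (hP : P.eval₂ i u = 0) : P.eval₂ j u' = 0 := by
  have h1 : P.modByMonic (asQ p g) = 0 :=
    hind _ (asQ_mod_deg g P) ((asQ_mod hu P).trans hP)
  rw [← asQ_mod hu' P, h1, Polynomial.eval₂_zero]

/-- the value of a polynomial in the entries of `C U(u)` is the value at `u` of a polynomial -/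
private theorem as_ev {R E Ω : Type} [CommRing R] [CommRing E] [CommRing Ω] (γ : R →+* E)
    (i : E →+* Ω) (u : Ω) (τ : G) (C : Matrix G G E) (F : MvPolynomial (G × G) R) :
    ev (i.comp γ) (C.map i * Umat p τ u) F =
      (ev ((Polynomial.C : E →+* Polynomial E).comp γ)
        (C.map (Polynomial.C : E →+* Polynomial E) * Umat p τ Polynomial.X) F).eval₂ i u := by
  have h1 := ev_map (Polynomial.eval₂RingHom i u) ((Polynomial.C : E →+* Polynomial E).comp γ)
    (C.map (Polynomial.C : E →+* Polynomial E) * Umat p τ Polynomial.X) F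
  have h2 : (Polynomial.eval₂RingHom i u).comp (Polynomial.C : E →+* Polynomial E) = i := by
    ext x
    simp
  have h3 : (C.map (Polynomial.C : E →+* Polynomial E) * Umat p τ Polynomial.X).map
      (Polynomial.eval₂RingHom i u) = C.map i * Umat p τ u := by
    rw [Matrix.map_mul, umat_map, Matrix.map_map, ← RingHom.coe_comp, h2]
    congr 2
    simp
  rw [h3, ← RingHom.comp_assoc, h2] at h1
  exact h1.symm

theorem rel_as {R E Ω Ω' : Type} [CommRing R] [CommRing E] [Nontrivial E] [CommRing Ω]
    [CommRing Ω'] (γ : R →+* E)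
    {i : E →+* Ω} {j : E →+* Ω'} {g : E} {u : Ω} {u' : Ω'} (hu : u ^ p - u = i g)
    (hu' : u' ^ p - u' = j g)
    (hind : ∀ P : Polynomial E, P.natDegree < p → P.eval₂ i u = 0 → P = 0) (τ : G)
    (C : Matrix G G E) :
    Rel (i.comp γ) (C.map i * Umat p τ u) (j.comp γ) (C.map j * Umat p τ u') := by
  intro F hF
  rw [as_ev] at hF ⊢
  exact rel_poly_as hu hu' hind _ hF

/-- polynomials of small degree which are invariant under `X ↦ X + 1` are constant -/
private theorem as_const {E : Type} [CommRing E] [IsDomain E] [CharP E p] (P : Polynomial E)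
    (hdeg : P.natDegree < p) (h : P.comp (Polynomial.X + 1) = P) : P = Polynomial.C (P.coeff 0) := by
  classical
  have hev : ∀ n : ℕ, P.eval (n : E) = P.coeff 0 := by
    intro n
    induction n with
    | zero => rw [Nat.cast_zero, Polynomial.coeff_zero_eq_eval_zero]
    | succ n ih =>
      rw [← ih]
      conv_rhs => rw [← h]
      rw [Polynomial.eval_comp]
      simp
  rw [← sub_eq_zero]
  have hdeg' : (P - Polynomial.C (P.coeff 0)).natDegree < p := by
    rw [Polynomial.natDegree_sub_C]
    exact hdeg
  refine Polynomial.eq_zero_of_natDegree_lt_card_of_eval_eq_zero' _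
    ((Finset.range p).image (fun n : ℕ => (n : E))) ?_ ?_
  · intro x hx
    obtain ⟨n, _, rfl⟩ := Finset.mem_image.mp hx
    rw [Polynomial.eval_sub, Polynomial.eval_C, hev, sub_self]
  · rw [Finset.card_image_of_injOn, Finset.card_range]
    · exact hdeg'
    · intro a ha b hb hab
      have ha' : a < p := Finset.mem_range.mp ha
      have hb' : b < p := Finset.mem_range.mp hb
      have := (CharP.natCast_eq_natCast E p).mp hab
      exact Nat.ModEq.eq_of_lt_of_lt this ha' hb'

theorem fm_as {E Ω : Type} [CommRing E] [IsDomain E] [CharP E p] [Field Ω] [CharP Ω p]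
    {i : E →+* Ω} (hi : Function.Injective i) {g : E} {u : Ω} (hu : u ^ p - u = i g)
    (hind : ∀ P : Polynomial E, P.natDegree < p → P.eval₂ i u = 0 → P = 0) (τ : G)
    (hτ : orderOf τ = p) : FM p i (Umat p τ u) (Subgroup.zpowers τ) := by
  have hτp : τ ^ p = 1 := by rw [← hτ]; exact pow_orderOf_eq_one τ
  have hunit : ∀ {S : Type} [CommRing S] [CharP S p] (v : S), IsUnit (Umat p τ v) := by
    intro S _ _ v
    have h1 : Umat p τ v * Umat p τ (-v) = 1 := by
      rw [← umat_add τ hτp, add_neg_cancel, umat_zero]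
    have h2 : Umat p τ (-v) * Umat p τ v = 1 := by
      rw [← umat_add τ hτp, neg_add_cancel, umat_zero]
    exact ⟨⟨_, _, h1, h2⟩, rfl⟩
  have hact : ∀ n : ℕ, actM (τ ^ n) (Umat p τ u) = Umat p τ (u + n) := by
    intro n
    induction n with
    | zero => simp
    | succ n ih =>
      have h1 : actM (τ ^ (n + 1)) (Umat p τ u) = actM τ (actM (τ ^ n) (Umat p τ u)) := by
        rw [actM_actM, pow_succ]
      rw [h1, ih, actM_umat τ hτp]
      congr 1
      push_cast
      ring
  have hshift : ∀ n : ℕ, (u + n) ^ p - (u + n) = i g := by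
    intro n
    rw [add_pow_char, ← hu]
    have h1 : ((n : Ω)) ^ p = n := by
      have := map_natCast (frobenius Ω p) n
      rwa [frobenius_def] at this
    rw [h1]
    ring
  refine ⟨hunit u, ⟨Umat p τ g, hunit g, ?_⟩, ?_, ?_⟩
  · rw [umat_frob, umat_map, ← umat_add τ hτp]
    congr 1
    rw [← hu]
    ring
  · intro h hh F hF
    obtain ⟨n, rfl⟩ : ∃ n : ℕ, τ ^ n = h := by
      have h1 : h ∈ Submonoid.powers τ := mem_powers_iff_mem_zpowers.mpr hh
      exact h1
    rw [hact n]
    have h2 := rel_as (RingHom.id E) hu (hshift n) hind τ (1 : Matrix G G E)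
    have h3 : (1 : Matrix G G E).map i = 1 := by
      rw [Matrix.map_one]
      · exact map_zero i
      · exact map_one i
    rw [h3, one_mul, one_mul, RingHom.comp_id] at h2
    exact h2 F hF
  · intro F hF
    have h3 : (1 : Matrix G G E).map i = 1 := by
      rw [Matrix.map_one]
      · exact map_zero i
      · exact map_one i
    have hP : ∀ v : Ω, ev i (Umat p τ v) F =
        (ev ((Polynomial.C : E →+* Polynomial E).comp (RingHom.id E))
        ((1 : Matrix G G E).map (Polynomial.C : E →+* Polynomial E) *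
          Umat p τ Polynomial.X) F).eval₂ i v := by
      intro v
      have h4 := as_ev (RingHom.id E) i v τ (1 : Matrix G G E) F (p := p)
      rw [h3, one_mul, RingHom.comp_id] at h4
      exact h4
    obtain ⟨P, hPdef⟩ : ∃ P, P = ev ((Polynomial.C : E →+* Polynomial E).comp (RingHom.id E))
        ((1 : Matrix G G E).map (Polynomial.C : E →+* Polynomial E) *
          Umat p τ Polynomial.X) F := ⟨_, rfl⟩
    rw [← hPdef] at hP
    have h5 : P.eval₂ i (u + 1) = P.eval₂ i u := by
      have h6 := hF τ (Subgroup.mem_zpowers τ)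
      have h7 := hact 1
      rw [pow_one, Nat.cast_one] at h7
      rw [h7, hP, hP] at h6
      exact h6
    have hu1 : (u + 1) ^ p - (u + 1) = i g := by
      have := hshift 1
      rwa [Nat.cast_one] at this
    obtain ⟨P', hP'⟩ : ∃ P', P' = P.modByMonic (asQ p g) := ⟨_, rfl⟩
    have hd : P'.natDegree < p := by rw [hP']; exact asQ_mod_deg g P
    have e1 : P'.eval₂ i u = P.eval₂ i u := by rw [hP']; exact asQ_mod hu P
    have e2 : P'.eval₂ i (u + 1) = P.eval₂ i (u + 1) := by rw [hP']; exact asQ_mod hu1 P
    have e3 : P'.comp (Polynomial.X + 1) = P' := by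
      rw [← sub_eq_zero]
      apply hind
      · refine lt_of_le_of_lt (Polynomial.natDegree_sub_le _ _) ?_
        refine max_lt ?_ hd
        refine lt_of_le_of_lt (Polynomial.natDegree_comp_le) ?_
        have : (Polynomial.X + 1 : Polynomial E).natDegree = 1 := by
          have := Polynomial.natDegree_X_add_C (1 : E)
          simpa using this
        rw [this, mul_one]
        exact hd
      · rw [Polynomial.eval₂_sub, Polynomial.eval₂_comp, Polynomial.eval₂_add,
          Polynomial.eval₂_X, Polynomial.eval₂_one, e1, e2, h5, sub_self]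
    have e4 := as_const P' hd e3
    refine ⟨P'.coeff 0, ?_⟩
    rw [hP u, ← e1, e4, Polynomial.eval₂_C]
    simp

end

end Pool.Agent.Helper54.FP
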